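import Mathlib
import Pool.Agent.H4.GIdxE

namespace Pool.Agent.Results.MP_848d58_co.Gap

open Pool.Agent.H4.GIdx Finset Classical

/-- `t` is the translate of `s` by `a`. -/
def Tr {G V : Type} [Group G] [MulAction G V] (a : G) (s t : Finset V) : Prop :=
  ∀ v, a • v ∈ t ↔ v ∈ s

/-- `F` is the set of simplices of a free `G`-simplicial complex with vertices in `V`: simplices are
nonempty, closed under nonempty subsets and under `G`, and `G` acts freely on the realisation. -/
def FreeComplex (G : Type) {V : Type} [Group G] [Fintype V] [MulAction G V]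
    (F : Finset V → Prop) : Prop :=
  (∀ s, F s → s.Nonempty) ∧ (∀ s t, F s → t ⊆ s → t.Nonempty → F t) ∧
    (∀ (a : G) s t, Tr a s t → F s → F t) ∧
    ∀ (a : G), ∀ x ∈ geo F, (∀ v, x (a • v) = x v) → a = 1

/-- There is a `G`-map from the face poset of `F` to `Q_k G`. -/
def XFace (G : Type) {V : Type} [Group G] [MulAction G V] (F : Finset V → Prop) (k : ℕ) : Prop :=
  ∃ ψ : {s // F s} → G × Fin (k + 1),
    (∀ (a : G) s t, Tr a s.1 t.1 → ψ t = (a * (ψ s).1, (ψ s).2)) ∧
    ∀ s t, s.1 ⊆ t.1 → ψ s = ψ t ∨ (ψ s).2 < (ψ t).2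

def VV (G W : Type) (m : ℕ) : Type := (G × W) ⊕ (G × Fin (m + 1))

variable {G W : Type} [Group G] [Fintype G] [Fintype W] {m : ℕ}

instance : Fintype (VV G W m) := inferInstanceAs (Fintype ((G × W) ⊕ (G × Fin (m + 1))))

instance : MulAction G (VV G W m) where
  smul a := Sum.map (fun u => (a * u.1, u.2)) fun u => (a * u.1, u.2)
  one_smul := by
    rintro (p | p)
    · exact congrArg Sum.inl (Prod.ext (one_mul _) rfl)
    · exact congrArg Sum.inr (Prod.ext (one_mul _) rfl)
  mul_smul := by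
    rintro a b (p | p)
    · exact congrArg Sum.inl (Prod.ext (mul_assoc _ _ _) rfl)
    · exact congrArg Sum.inr (Prod.ext (mul_assoc _ _ _) rfl)

def vl (u : G × W) : VV G W m := Sum.inl u
def vr (u : G × Fin (m + 1)) : VV G W m := Sum.inr u

noncomputable def lf (s : Finset (VV G W m)) : Finset (G × W) := univ.filter fun u => vl u ∈ s
noncomputable def rt (s : Finset (VV G W m)) : Finset (G × Fin (m + 1)) :=
  univ.filter fun u => vr u ∈ s

omit [Group G] in
theorem mem_lf {s : Finset (VV G W m)} {u : G × W} : u ∈ lf s ↔ vl u ∈ s := by simp [lf]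
omit [Group G] [Fintype W] in
theorem mem_rt {s : Finset (VV G W m)} {u : G × Fin (m + 1)} : u ∈ rt s ↔ vr u ∈ s := by simp [rt]

omit [Fintype G] in
theorem mem_sh' {U : Type} {a : G} {S : Finset (G × U)} {u : G × U} :
    u ∈ sh a S ↔ ∃ v ∈ S, (a * v.1, v.2) = u := by simp only [sh, mem_image]

omit [Group G] [Fintype G] [Fintype W] in
theorem mem_vl (T : Finset (G × W)) (u : G × W) : (vl u : VV G W m) ∈ T.image vl ↔ u ∈ T :=
  Function.Injective.mem_finset_image (f := (vl : G × W → VV G W m)) Sum.inl_injective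

omit [Group G] [Fintype G] [Fintype W] in
theorem mem_vr (T : Finset (G × Fin (m + 1))) (u : G × Fin (m + 1)) :
    (vr u : VV G W m) ∈ T.image vr ↔ u ∈ T :=
  Function.Injective.mem_finset_image (f := (vr : G × Fin (m + 1) → VV G W m)) Sum.inr_injective

omit [Fintype G] in
theorem tr_sh {U : Type} {a : G} {S T : Finset (G × U)} (h : ∀ u : G × U, (a * u.1, u.2) ∈ T ↔ u ∈ S) :
    T = sh a S := by
  ext u
  have h1 := h (a⁻¹ * u.1, u.2)
  have h2 := mem_sh (a := a) (S := S) (u := (a⁻¹ * u.1, u.2))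
  simp only [mul_inv_cancel_left] at h1 h2
  rw [h1, h2]

theorem tr_lf {a : G} {s t : Finset (VV G W m)} (h : Tr a s t) : lf t = sh a (lf s) :=
  tr_sh fun u => by rw [mem_lf, mem_lf]; exact h (vl u)

omit [Fintype W] in
theorem tr_rt {a : G} {s t : Finset (VV G W m)} (h : Tr a s t) : rt t = sh a (rt s) :=
  tr_sh fun u => by rw [mem_rt, mem_rt]; exact h (vr u)

def FF (D : Finset (Finset (G × W))) (m : ℕ) (s : Finset (VV G W m)) : Prop :=
  (lf s ∈ D ∧ rt s = ∅) ∨ (lf s = ∅ ∧ EF G m (rt s))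

omit [Group G] in
theorem lf_mono {s t : Finset (VV G W m)} (h : s ⊆ t) : lf s ⊆ lf t :=
  fun _ hu => mem_lf.2 (h (mem_lf.1 hu))
omit [Group G] [Fintype W] in
theorem rt_mono {s t : Finset (VV G W m)} (h : s ⊆ t) : rt s ⊆ rt t :=
  fun _ hu => mem_rt.2 (h (mem_rt.1 hu))

omit [Group G] in
theorem ne_cases {s : Finset (VV G W m)} (h : s.Nonempty) : (lf s).Nonempty ∨ (rt s).Nonempty := by
  obtain ⟨v | v, hv⟩ := h
  · exact Or.inl ⟨v, mem_lf.2 hv⟩
  · exact Or.inr ⟨v, mem_rt.2 hv⟩

omit [Group G] in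
theorem sum_vv (x : VV G W m → ℝ) : ∑ p, x p = ∑ u, x (vl u) + ∑ v, x (vr v) :=
  Fintype.sum_sum_type (M := ℝ) x

omit [Fintype G] in
theorem ef_sh {a : G} {S : Finset (G × Fin (m + 1))} (h : EF G m S) : EF G m (sh a S) := by
  obtain ⟨w, hw⟩ := h.1
  refine ⟨⟨_, mem_sh.2 hw⟩, fun u hu v hv e => ?_⟩
  obtain ⟨u, hu', rfl⟩ := mem_sh'.1 hu
  obtain ⟨v, hv', rfl⟩ := mem_sh'.1 hv
  rw [h.2 u hu' v hv' e]

theorem ff_free {g : G} {γ : W → W → ℤ} {D : Finset (Finset (G × W))} (hD : Adm g γ D) :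
    FreeComplex G (FF D m) := by
  refine ⟨fun s hs => ?_, fun s t hs h hn => ?_, fun a s t h hs => ?_, ?_⟩
  · rcases hs with h | h
    · obtain ⟨u, hu⟩ := (hD _ h.1).1.1
      exact ⟨_, mem_lf.1 hu⟩
    · obtain ⟨u, hu⟩ := h.2.1
      exact ⟨_, mem_rt.1 hu⟩
  · rcases hs with a | a
    · have e : rt t = ∅ := subset_empty.1 (a.2 ▸ rt_mono h)
      exact Or.inl ⟨(hD _ a.1).2.2 _ (lf_mono h) ((ne_cases hn).resolve_right (by simp [e])), e⟩
    · have e : lf t = ∅ := subset_empty.1 (a.1 ▸ lf_mono h)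
      exact Or.inr ⟨e, (ne_cases hn).resolve_left (by simp [e]),
        fun u hu v hv => a.2.2 u (rt_mono h hu) v (rt_mono h hv)⟩
  · unfold FF
    rw [tr_lf h, tr_rt h]
    rcases hs with b | b
    · exact Or.inl ⟨(hD _ b.1).2.1 a, by simp [b.2, sh]⟩
    · exact Or.inr ⟨by simp [b.1, sh], ef_sh b.2⟩
  · rintro a x ⟨-, h1, s, hs, h2⟩ h
    obtain ⟨v, -, hv⟩ := exists_ne_zero_of_sum_ne_zero (h1.trans_ne one_ne_zero)
    have hv' : x (a • v) ≠ 0 := by rw [h]; exact hv
    rcases v with u | u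
    · have a1 : u ∈ lf s := mem_lf.2 (h2 _ hv)
      have a2 : (a * u.1, u.2) ∈ lf s := mem_lf.2 (h2 _ hv')
      rcases hs with b | b
      · obtain ⟨-, c, φ, e⟩ := (hD _ b.1).1
        have := ((e _ a2).1).trans (e _ a1).1.symm
        simpa using this
      · simp [b.1] at a1
    · have a1 : u ∈ rt s := mem_rt.2 (h2 _ hv)
      have a2 : (a * u.1, u.2) ∈ rt s := mem_rt.2 (h2 _ hv')
      rcases hs with b | b
      · simp [b.2] at a1
      · have := congrArg Prod.fst (b.2.2 _ a2 _ a1 rfl)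
        simpa using this

theorem ff_ind [Nontrivial G] {g : G} {γ : W → W → ℤ} {D : Finset (Finset (G × W))}
    (hD : Adm g γ D) (hm : 1 ≤ m) : IsLeast {k | GMap G (FF D m) k} m := by
  refine ind_of g γ hm _ (fun x u => x (vl u)) (by fun_prop) (fun a x y h b u => h (vl (b, u)))
    vr (fun _ _ _ => rfl) ?_ (fun y => Sum.elim 0 y) ?_ ?_ ?_
  · rintro x ⟨h0, h1, s, hs, h2⟩
    rw [sum_vv] at h1
    rcases hs with b | b
    · have hr : ∀ v, x (vr v) = 0 := by
        intro v
        by_contra h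
        have := mem_rt.2 (h2 _ h)
        simp [b.2] at this
      exact Or.inl ⟨⟨fun u => h0 _, by simpa [hr] using h1, lf s, (hD _ b.1).1,
        fun u hu => mem_lf.2 (h2 _ hu)⟩, hr⟩
    · have hl : ∀ v, x (vl v) = 0 := by
        intro v
        by_contra h
        have := mem_lf.2 (h2 _ h)
        simp [b.1] at this
      exact Or.inr ⟨funext hl, fun u => h0 _, by simpa [hl] using h1, rt s, b.2,
        fun u hu => mem_rt.2 (h2 _ hu)⟩
  · refine continuous_pi fun p => ?_
    rcases p with S | v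
    · exact continuous_const
    · exact continuous_apply v
  · rintro y ⟨h0, h1, s, hs, h2⟩
    refine ⟨?_, ?_, s.image vr, Or.inr ⟨?_, ?_⟩, ?_⟩
    · rintro (S | v)
      · exact le_rfl
      · exact h0 v
    · rw [sum_vv, ← h1]
      simp [vl, vr]
    · ext u
      simp [mem_lf, vl, vr]
    · convert hs
      ext u
      rw [mem_rt, mem_vr]
    · rintro (S | v) h
      · exact absurd rfl h
      · exact mem_image_of_mem _ (h2 v h)
  · rintro a x y h (S | v)
    · rfl
    · exact h v.1 v.2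

theorem result (G : Type) [Group G] [Fintype G] [Nontrivial G] (m n : ℕ) (hm : 1 ≤ m)
    (hmn : m < n) : ∃ (V : Type) (_ : Fintype V) (_ : MulAction G V) (F : Finset V → Prop),
      FreeComplex G F ∧ IsLeast {k | GMap G F k} m ∧ IsLeast {k | XFace G F k} n := by
  obtain ⟨g, hg⟩ := exists_ne (1 : G)
  obtain ⟨n, rfl⟩ : ∃ k, n = k + 1 := ⟨n - 1, by omega⟩
  obtain ⟨W, _, γ, D, hD, h1, h2⟩ := ivt g hg (fun p q => p = q ∨ p.2 < q.2) (fun _ => Or.inl rfl)
    (fun _ _ => Or.inr) (fun p q h e => by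
      rcases h with rfl | h
      · rfl
      · omega) n
  refine ⟨VV G W m, inferInstance, inferInstance, FF D m, ff_free hD, ff_ind hD hm, ?_, ?_⟩
  · obtain ⟨lab, H⟩ := h1
    have htop : ∀ S : Finset (G × Fin (m + 1)), ∃ u : G × Fin (m + 1), S.Nonempty →
        u ∈ S ∧ ∀ v ∈ S, v.2 ≤ u.2 := by
      intro S
      by_cases h : S.Nonempty
      · obtain ⟨u, hu⟩ := exists_max_image S Prod.snd h
        exact ⟨u, fun _ => hu⟩
      · exact ⟨(1, 0), fun h' => absurd h' h⟩
    choose top htop using htop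
    have hne : ∅ ∉ D := fun h => by simpa using (hD _ h).1.1
    have other : ∀ s, FF D m s → lf s ∉ D → lf s = ∅ ∧ EF G m (rt s) :=
      fun s hs h => hs.resolve_left fun h' => h h'.1
    refine ⟨fun s => if h : lf s.1 ∈ D then
      ((lab (lf s.1)).1, ⟨(lab (lf s.1)).2, Nat.lt_succ_of_le (H _ h).1⟩)
      else ((top (rt s.1)).1, (top (rt s.1)).2.castLE (by omega)), fun a s t h => ?_, fun s t h => ?_⟩
    · by_cases e : lf s.1 ∈ D
      · have e' : lf t.1 ∈ D := by rw [tr_lf h]; exact (hD _ e).2.1 a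
        simp only [e, e', dite_true]
        have := (H _ e).2.1 a
        rw [← tr_lf h] at this
        simp only [this]
      · obtain ⟨b1, b2⟩ := other _ s.2 e
        have e' : lf t.1 ∉ D := by rw [tr_lf h, b1]; simpa [sh] using hne
        simp only [e, e', dite_false]
        obtain ⟨c1, c2⟩ := htop _ b2.1
        have b3 := (other _ t.2 e').2
        obtain ⟨d1, d2⟩ := htop _ b3.1
        have f1 : (a * (top (rt s.1)).1, (top (rt s.1)).2) ∈ rt t.1 := by
          rw [tr_rt h]; exact mem_sh.2 c1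
        have f2 : (top (rt t.1)).2 ≤ (top (rt s.1)).2 := by
          obtain ⟨v, hv, e⟩ := mem_sh'.1 ((tr_rt h).subset d1)
          rw [← e]
          exact c2 v hv
        rw [b3.2 _ d1 _ f1 (le_antisymm f2 (d2 _ f1))]
    · by_cases e : lf s.1 ∈ D
      · have e' : lf t.1 ∈ D := by
          by_contra e'
          have := lf_mono h
          rw [(other _ t.2 e').1, subset_empty] at this
          exact hne (this ▸ e)
        simp only [e, e', dite_true]
        refine ((H _ e).2.2 _ e' (lf_mono h)).imp (fun k => ?_) id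
        simp only [k]
      · obtain ⟨b1, b2⟩ := other _ s.2 e
        have e' : lf t.1 ∉ D := by
          intro e'
          rcases t.2 with k | k
          · have := rt_mono h
            rw [k.2, subset_empty] at this
            simpa [this] using b2.1
          · exact hne (k.1 ▸ e')
        simp only [e, e', dite_false]
        have b3 := (other _ t.2 e').2
        obtain ⟨c1, -⟩ := htop _ b2.1
        obtain ⟨d1, d2⟩ := htop _ b3.1
        rcases (d2 _ (rt_mono h c1)).eq_or_lt with k | k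
        · left; rw [b3.2 _ (rt_mono h c1) _ d1 k]
        · exact Or.inr k
  · rintro k ⟨ψ, a, b⟩
    by_contra hk
    have hF : ∀ S : {S // S ∈ D}, FF D m (S.1.image vl) := by
      intro S
      refine Or.inl ⟨?_, ?_⟩
      · convert S.2
        ext u
        rw [mem_lf, mem_vl]
      · ext u
        simp [mem_rt, vl, vr]
    refine h2 (lab_mono (by omega) (lab_pp (D := ⟨D, hD⟩) (k := k) (fun S => ψ ⟨_, hF S⟩)
      (fun c S => a c _ _ ?_) fun S T h =>
        (b ⟨_, hF S⟩ ⟨_, hF T⟩ (image_subset_image h)).imp (fun e => by rw [e]) id))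
    rintro (v | v)
    · exact (mem_vl _ (c * v.1, v.2)).trans (mem_sh.trans (mem_vl _ v).symm)
    · have : ∀ (T : Finset (G × W)) u, (vr u : VV G W m) ∉ T.image vl := by
        intro T u; simp [vl, vr]
      exact iff_of_false (this _ (c * v.1, v.2)) (this _ v)

end Pool.Agent.Results.MP_848d58_co.Gap
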